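import Pool.Agent.helper61.CSW.W.SpecW

/-!
# Project csw: row FNS: finitely many points of a given period with small multiplier
-/

set_option autoImplicit false

open Complex Metric Set Filter Topology MeasureTheory
open YPPS (fd fdd pre TT CV IsCyc rho Exact)
open MPS (BB)
open Pool.Agent.helper98.ILF (juliaSet fatouSet)

noncomputable section

open CSS (SE SV JJ)

namespace YW

theorem FNS_add (f : SE) (m k : ℕ) (z : ℂ) : it f (m + k) z = it f m (it f k z) := by
  unfold it
  rw [Function.iterate_add_apply]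

theorem FNS (hTTE : CSS.TTE_stmt) (hNIJ : YPPS.NIJ_stmt) (hIFC : CSS.IFC_stmt) : FNS_stmt := by
  intro f k hk
  have hdif : ∀ i, Differentiable ℂ (it f i) := (hIFC f).1
  obtain ⟨R, hR1, -, hT⟩ := hTTE f 3 (by norm_num)
  -- bounded
  obtain ⟨Q, hQ, hsub⟩ : ∃ Q : Set ℂ, IsCompact Q ∧ {z : ℂ | it f k z = z ∧ ‖mlt f k z‖ ≤ 2} ⊆ Q := by
    refine ⟨⋃ i ∈ Finset.range (k + 1), it f i '' closedBall 0 R, ?_, ?_⟩
    · refine (Finset.range (k + 1)).isCompact_biUnion fun i _ => ?_
      exact (isCompact_closedBall _ _).image (hdif i).continuous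
    · rintro z ⟨hz1, hz2⟩
      by_cases hall : ∀ j, 1 ≤ j → j ≤ k → R < ‖it f j z‖
      · exfalso
        have h1 := hT k z hall
        have hzR : R < ‖z‖ := by
          have := hall k hk le_rfl
          rwa [hz1] at this
        have hz0 : 0 < ‖z‖ := by linarith
        have h2 : (3 : ℝ) ^ k * ‖z‖ ≤ ‖z‖ * 2 := by
          have e1 : CSS.it f k z = z := hz1
          rw [e1] at h1
          exact h1.trans (mul_le_mul_of_nonneg_left hz2 hz0.le)
        have h3 : (3 : ℝ) ≤ 3 ^ k := by
          calc (3 : ℝ) = 3 ^ 1 := by norm_num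
            _ ≤ 3 ^ k := pow_le_pow_right₀ (by norm_num) hk
        nlinarith
      · push Not at hall
        obtain ⟨j, hj1, hj2, hj3⟩ := hall
        rw [Set.mem_iUnion₂]
        refine ⟨k - j, Finset.mem_range.2 (by omega), it f j z, ?_, ?_⟩
        · rwa [mem_closedBall_zero_iff]
        · rw [← FNS_add, show k - j + j = k by omega, hz1]
  -- discrete
  by_contra hinf
  have hinf' : {z : ℂ | it f k z = z ∧ ‖mlt f k z‖ ≤ 2}.Infinite := hinf
  obtain ⟨x, -, hacc⟩ := hinf'.exists_accPt_of_subset_isCompact hQ hsub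
  rw [accPt_iff_frequently_nhdsNE] at hacc
  have hG : AnalyticOnNhd ℂ (fun z => it f k z - z) univ :=
    ((hdif k).sub differentiable_id).differentiableOn.analyticOnNhd isOpen_univ
  have hfreq : ∃ᶠ z in 𝓝[≠] x, (fun z => it f k z - z) z = 0 := by
    apply hacc.mono
    intro z hz
    show it f k z - z = 0
    rw [hz.1, sub_self]
  have hzero := hG.eqOn_zero_of_preconnected_of_frequently_eq_zero isPreconnected_univ (mem_univ x) hfreq
  apply hNIJ f
  intro a b hab
  have ha : it f k a - a = 0 := hzero (mem_univ a)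
  have hb : it f k b - b = 0 := hzero (mem_univ b)
  have hab' : it f k a = it f k b := by
    obtain ⟨m, rfl⟩ : ∃ m, k = m + 1 := ⟨k - 1, by omega⟩
    rw [FNS_add, FNS_add]
    congr 1
  rw [← sub_eq_zero.1 ha, ← sub_eq_zero.1 hb, hab']

end YW
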